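import Pool.Agent.TH652.PR.Main

/-!
# The central orders of all Artin L-functions of a Galois extension of `ℚ` from its prime races

`F / ℚ` is a finite Galois extension with group `G`, `S` a finite set of primes containing the ramified
ones, and for a complex representation `τ` of `G` let

`L_S(s, τ) = ∏_{p ∉ S} det (1 - p^{-s} τ(Frob_p))⁻¹`

be its Artin `L`-function, without the factors at `S`, which do not vanish and have no poles for
`Re s > 0`. For `g ∈ G` let `C_g` be the union of the conjugacy classes of `g` and `g⁻¹`, and for real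
`γ` and `T > 0`

`P_g(T) = 1 / |C_g| · ∑_{p ∉ S, Frob_p ∈ C_g} p^{-1/2} · exp (i γ log p / T) / Γ(1 + log p / T)`.

Only primes occur in this sum, no prime powers. Let `m_τ` be the order of `L_S(s, τ)` at `s = 1 / 2` and
`r(g)` the number of the square roots of `g` in `G`. We show for `γ > π / 2`

`P_g(T) = - 1/|G| · (r(g) / 2 + ∑_τ Re χ_τ(g) m_τ) · log T + O(1)`,

without any hypothesis on the zeros: the central zeros and the term `r(g) / 2` of Chebyshev's bias
determine the race between the classes. It follows that the statements (ii) and (iii) of the problem hold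
for `F` if and only if, for all `g`,

`P_g(T) / log T → - 1/|G| · (r(g) / 2 + ∑_{χ symplectic, W(χ) = -1} χ(g))`.

The facts about Artin `L`-functions which enter are the meromorphic continuation (Brauer), used only along
the half-line `[1/2, ∞)`, and the orders at `s = 1`.
-/

set_option autoImplicit false

open Filter Topology NumberField

namespace Pool.Agent.Results.MP_3b6604_nt.PrimeRaces

open Pool.Agent.TH652.ART (IsComplete)

/-- The prime number `p` is unramified in `F` and `g` is a Frobenius element at `p`: there is a maximal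
ideal `Q` of `𝓞 F` containing `p`, with `p ∉ Q²`, such that `g x ≡ x ^ p` modulo `Q` for all `x`. -/
def IsUnramifiedFrobenius {F : Type} [Field F] [NumberField F] (p : Nat.Primes)
    (g : F ≃ₐ[ℚ] F) : Prop :=
  ∃ Q : Ideal (𝓞 F), Q.IsMaximal ∧ ((p : ℕ) : 𝓞 F) ∈ Q ∧ ((p : ℕ) : 𝓞 F) ∉ Q ^ 2 ∧
    ∀ x : 𝓞 F, g • x - x ^ (p : ℕ) ∈ Q

section
variable {G : Type} [Group G]

open Classical in
/-- `L_S(s, τ) = ∏_{p ∉ S} det (1 - p^{-s} τ(Frob_p))⁻¹`. -/
noncomputable def artinL (S : Finset Nat.Primes) (Fr : Nat.Primes → G) {m : ℕ}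
    (τ : Representation ℂ G (Fin m → ℂ)) (s : ℂ) : ℂ :=
  ∏' p : Nat.Primes, if p ∈ S then 1 else
    (LinearMap.det (1 - (((p : ℕ) : ℂ) ^ (-s)) • τ (Fr p)))⁻¹

/-- The union of the conjugacy classes of `g` and `g⁻¹`. -/
def realClass (g : G) : Set G := {x | IsConj g x ∨ IsConj g x⁻¹}

/-- The number of the square roots of `g`. -/
noncomputable def squareRoots (g : G) : ℕ := Nat.card {h : G // h * h = g}

/-- The term of `P_g(T)` for the prime `p`. -/
noncomputable def term (γ T : ℝ) (p : Nat.Primes) : ℂ :=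
  ((((p : ℕ) : ℝ) ^ (-(1 / 2 : ℝ)) / Real.Gamma (1 + Real.log ((p : ℕ) : ℝ) / T) : ℝ) : ℂ) *
    Complex.exp ((γ * (Real.log ((p : ℕ) : ℝ) / T) : ℝ) * Complex.I)

open Classical in
/-- `P_g(T)`, the sum over the primes `p ∉ S` with `Frob_p` in the real class of `g`, divided by the
size of this class. -/
noncomputable def primeSum (S : Finset Nat.Primes) (Fr : Nat.Primes → G) (γ : ℝ) (g : G)
    (T : ℝ) : ℂ :=
  (Nat.card (realClass g) : ℂ)⁻¹ * ∑' p : Nat.Primes,
    if p ∉ S ∧ Fr p ∈ realClass g then term γ T p else 0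

/-- The primes `p` with `log p ≤ e^{A T}`. -/
def cutoff (A T : ℝ) : Set Nat.Primes := {p | Real.log ((p : ℕ) : ℝ) ≤ Real.exp (A * T)}

open Classical in
/-- The part of `P_g(T)` with `log p ≤ e^{A T}`, a finite sum. -/
noncomputable def finitePrimeSum (S : Finset Nat.Primes) (Fr : Nat.Primes → G) (A γ : ℝ) (g : G)
    (T : ℝ) : ℂ :=
  (Nat.card (realClass g) : ℂ)⁻¹ * ∑ᶠ p ∈ cutoff A T,
    if p ∉ S ∧ Fr p ∈ realClass g then term γ T p else 0

variable [Fintype G]

/-- The Frobenius-Schur indicator of the representation is `-1`. -/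
def IsSymplectic {m : ℕ} (τ : Representation ℂ G (Fin m → ℂ)) : Prop :=
  (Nat.card G : ℂ)⁻¹ * ∑ g, τ.character (g * g) = -1

open Classical in
/-- The statements about the functions `P_g(T)`, `g ∈ G`, for a complete system `τ_k` of irreducible
representations of `G` and the orders `m_k` of their `L`-functions at `1 / 2`:
* `P_g(T) = - 1/|G| · (r(g) / 2 + ∑_k Re χ_k(g) m_k) log T + O(1)`;
* for all signs `W_k` of the symplectic `τ_k`: `m_k = (1 - W_k) / 2` for all symplectic `τ_k` and
`m_k = 0` for all other `τ_k` if and only if `P_g(T) / log T` tends to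
`- 1/|G| · (r(g) / 2 + ∑_{τ_k symplectic, W_k = -1} χ_k(g))` for all `g`. -/
def RaceLaw {κ : Type} [Fintype κ] {n : κ → ℕ} (τ : ∀ k, Representation ℂ G (Fin (n k) → ℂ))
    (m : κ → ℤ) (Pg : G → ℝ → ℂ) : Prop :=
  (∀ g, (fun T : ℝ => Pg g T + (Nat.card G : ℂ)⁻¹ * ((squareRoots g : ℂ) / 2 +
      ∑ k, (((τ k).character g).re : ℂ) * m k) * Real.log T) =O[atTop] (fun _ : ℝ => (1 : ℝ))) ∧
  ∀ W : κ → ℤ, (∀ k, IsSymplectic (τ k) → W k = 1 ∨ W k = -1) →
    (((∀ k, ¬ IsSymplectic (τ k) → m k = 0) ∧ ∀ k, IsSymplectic (τ k) → 2 * m k = 1 - W k) ↔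
      ∀ g, Tendsto (fun T : ℝ => Pg g T / Real.log T) atTop
        (𝓝 (-((Nat.card G : ℂ)⁻¹ * ((squareRoots g : ℂ) / 2 +
          ∑ k with IsSymplectic (τ k) ∧ W k = -1, (τ k).character g)))))

end

theorem raceLaw_of {G : Type} [Group G] [Fintype G] {κ : Type} [Fintype κ] {n : κ → ℕ}
    {τ : ∀ k, Representation ℂ G (Fin (n k) → ℂ)} {m : κ → ℤ} {Pg Pg' : G → ℝ → ℂ}
    (h : RaceLaw τ m Pg)
    (h' : ∀ g, (fun T : ℝ => Pg g T - Pg' g T) =O[atTop] (fun T : ℝ => 1 / T)) :
    RaceLaw τ m Pg' := by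
  have h0 : Tendsto (fun T : ℝ => (1 : ℝ) / T) atTop (𝓝 0) :=
    tendsto_const_nhds.div_atTop tendsto_id
  obtain ⟨h1, h2⟩ := h
  have hlim : ∀ g (a : ℂ), Tendsto (fun T : ℝ => Pg g T / Real.log T) atTop (𝓝 a) ↔
      Tendsto (fun T : ℝ => Pg' g T / Real.log T) atTop (𝓝 a) := by
    have h5 : Tendsto (fun T : ℝ => (((Real.log T)⁻¹ : ℝ) : ℂ)) atTop (𝓝 0) := by
      have := (Complex.continuous_ofReal.tendsto 0).comp
        (Real.tendsto_log_atTop.inv_tendsto_atTop)
      rw [Complex.ofReal_zero] at this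
      exact this
    intro g a
    have h6 : Tendsto (fun T : ℝ => (Pg g T - Pg' g T) * (((Real.log T)⁻¹ : ℝ) : ℂ)) atTop
        (𝓝 0) := by
      have := ((h' g).trans_tendsto h0).mul h5
      rwa [mul_zero] at this
    have h7 : ∀ T : ℝ, Pg g T / Real.log T =
        Pg' g T / Real.log T + (Pg g T - Pg' g T) * (((Real.log T)⁻¹ : ℝ) : ℂ) := by
      intro T
      rw [Complex.ofReal_inv]
      ring
    constructor
    · intro h8
      have := h8.sub h6
      rw [sub_zero] at this
      refine this.congr fun T => ?_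
      rw [h7]
      ring
    · intro h8
      have := h8.add h6
      rw [add_zero] at this
      exact this.congr fun T => (h7 T).symm
  refine ⟨fun g => ?_, fun W hW => ?_⟩
  · refine ((h1 g).sub ((h' g).trans (h0.isBigO_one ℝ))).congr_left fun T => ?_
    ring
  · rw [h2 W hW]
    exact forall_congr' fun g => hlim g _

/-- **The statements (ii) and (iii) for a Galois extension of `ℚ` as limits of the sums over the primes
with Frobenius in a given class.** -/
theorem result (F : Type) [Field F] [NumberField F] [IsGalois ℚ F] [Fintype (F ≃ₐ[ℚ] F)]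
    (S : Finset Nat.Primes) (Fr : Nat.Primes → (F ≃ₐ[ℚ] F))
    (_hFr : ∀ p ∉ S, IsUnramifiedFrobenius p (Fr p))
    (κ : Type) [Fintype κ] (n : κ → ℕ) (τ : ∀ k, Representation ℂ (F ≃ₐ[ℚ] F) (Fin (n k) → ℂ))
    (hτ : IsComplete τ) (k₀ : κ) (hk₀ : ∀ g, (τ k₀).character g = 1)
    (L : κ → ℂ → ℂ) (σ₁ : ℝ)
    (hmer : ∀ k, ∀ x : ℝ, (1 / 2 : ℝ) ≤ x → MeromorphicAt (L k) (x : ℂ))
    (hL : ∀ k, ∀ s : ℂ, σ₁ < s.re → L k s = artinL S Fr (τ k) s)
    (hone₀ : meromorphicOrderAt (L k₀) 1 = ((-1 : ℤ) : WithTop ℤ))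
    (hone : ∀ k, k ≠ k₀ → meromorphicOrderAt (L k) 1 = 0) :
    ∃ m : κ → ℤ, (∀ k, meromorphicOrderAt (L k) (1 / 2) = m k) ∧
      ∀ γ : ℝ, Real.pi / 2 < γ →
        RaceLaw τ m (primeSum S Fr γ) ∧
        ∀ A : ℝ, 1 / 2 < A → (∀ T : ℝ, (cutoff A T).Finite) ∧
          RaceLaw τ m (finitePrimeSum S Fr A γ) := by
  classical
  have hG : (Nat.card (F ≃ₐ[ℚ] F) : ℂ) ≠ 0 := TH652.ART.card_ne
  have hF : ∀ k, ∀ s : ℂ, σ₁ < s.re → L k s = ∏' p, (TH652.ART.tw (TH652.PR.pB S p)
      (τ k (Fr p)) ((TH652.PR.qp p : ℂ) ^ (-s)))⁻¹ := by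
    intro k s hs
    rw [hL k s hs]
    unfold artinL
    refine tprod_congr fun p => ?_
    unfold TH652.PR.pB
    by_cases hp : p ∈ S
    · rw [if_pos hp, if_pos hp, TH652.ART.tw_one, inv_one]
    · rw [if_neg hp, if_neg hp, TH652.PR.tw_lin]
      unfold TH652.PR.qp
      rw [Complex.ofReal_natCast]
  have hterm : ∀ (γ : ℝ) (g : F ≃ₐ[ℚ] F) (T : ℝ) (p : Nat.Primes),
      (Nat.card (realClass g) : ℂ)⁻¹ *
        (if p ∉ S ∧ Fr p ∈ realClass g then term γ T p else 0) =
      -((TH652.ART.cw g (Fr p) : ℂ) *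
        TH652.COL.lterm TH652.PR.qp (TH652.PR.pB S) (1 / 2) γ T (p, 0)) := by
    intro γ g T p
    unfold TH652.ART.cw TH652.PR.pB
    by_cases hv : p ∈ S
    · rw [if_neg fun h => h.1 hv, mul_zero]
      have : TH652.COL.lterm TH652.PR.qp (fun p => if p ∈ S then (1 : Polynomial ℝ) else
          1 - Polynomial.X) (1 / 2) γ T (p, 0) = 0 := by
        unfold TH652.COL.lterm
        beta_reduce
        rw [if_pos hv, TH652.ART.pw_one]
        simp
      rw [this, mul_zero, neg_zero]
    · have h1 : TH652.COL.lterm TH652.PR.qp (fun p => if p ∈ S then (1 : Polynomial ℝ) else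
          1 - Polynomial.X) (1 / 2) γ T (p, 0) = -term γ T p := by
        unfold TH652.COL.lterm term
        beta_reduce
        rw [if_neg hv, TH652.PR.pw_lin]
        unfold TH652.PR.qp
        simp only [Nat.cast_zero, zero_add, one_mul]
        push_cast
        ring
      rw [h1]
      by_cases hg : Fr p ∈ realClass g
      · rw [if_pos ⟨hv, hg⟩, if_pos (show Fr p ∈ TH652.ART.cls g from hg), mul_neg, neg_neg]
        push_cast
        rw [one_div]
        rfl
      · rw [if_neg fun h => hg h.2, if_neg (show Fr p ∉ TH652.ART.cls g from hg)]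
        simp
  have hsum : ∀ (γ : ℝ) (g : F ≃ₐ[ℚ] F) (T : ℝ), primeSum S Fr γ g T =
      -TH652.PR.psum S Fr (TH652.ART.cw g) (1 / 2) γ T := by
    intro γ g T
    unfold primeSum TH652.PR.psum
    rw [← tsum_mul_left, ← tsum_neg]
    exact tsum_congr fun p => hterm γ g T p
  have hcfin : ∀ A T : ℝ, (cutoff A T).Finite := by
    intro A T
    refine (TH652.PR.qp_fin (Real.exp (Real.exp (A * T)))).subset fun p hp => ?_
    have h1 : Real.log ((p : ℕ) : ℝ) ≤ Real.exp (A * T) := hp
    have h0 : (0 : ℝ) < ((p : ℕ) : ℝ) := by exact_mod_cast p.2.pos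
    exact (Real.log_le_iff_le_exp h0).1 h1
  have hfsum : ∀ (A γ : ℝ) (g : F ≃ₐ[ℚ] F) (T : ℝ), finitePrimeSum S Fr A γ g T =
      -∑ᶠ p ∈ {p : Nat.Primes | Real.log (TH652.PR.qp p) ≤ Real.exp (A * T)},
        (TH652.ART.cw g (Fr p) : ℂ) *
          TH652.COL.lterm TH652.PR.qp (TH652.PR.pB S) (1 / 2) γ T (p, 0) := by
    intro A γ g T
    unfold finitePrimeSum
    have hfin := hcfin A T
    have hfin' : {p : Nat.Primes | Real.log (TH652.PR.qp p) ≤ Real.exp (A * T)}.Finite := hfin
    rw [finsum_mem_eq_finite_toFinset_sum _ hfin, finsum_mem_eq_finite_toFinset_sum _ hfin',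
      Finset.mul_sum, ← Finset.sum_neg_distrib]
    exact Finset.sum_congr rfl fun p _ => hterm γ g T p
  obtain ⟨m, hm, hlaw⟩ := TH652.PR.half_law hτ hmer hF hk₀ hone₀ hone
  have hsym := TH652.PR.half_sym (hlaw Real.pi (by linarith [Real.pi_pos])).1
    (hlaw Real.pi (by linarith [Real.pi_pos])).2
  have hpt : ((1 / 2 : ℝ) : ℂ) = 1 / 2 := by push_cast; rfl
  refine ⟨m, fun k => by rw [← hpt]; exact hm k, fun γ hγ => ?_⟩
  obtain ⟨h1, -⟩ := hlaw γ hγ
  have key : RaceLaw τ m (primeSum S Fr γ) := by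
    refine ⟨fun g => ?_, fun W hW => ?_⟩
    · refine ((h1 g).neg_left).congr_left fun T => ?_
      rw [hsum]
      change _ = _ + _ * ((TH652.PR.rt g : ℂ) / 2 + _) * _
      ring
    · set Y : Finset κ := Finset.univ.filter fun k => IsSymplectic (τ k) ∧ W k = -1 with hYdef
      have hY : ∀ k ∈ Y, ∀ g, (((τ k).character g).re : ℂ) = (τ k).character g := by
        intro k hk g
        have h3 : IsSymplectic (τ k) := ((Finset.mem_filter.1 hk).2).1
        refine TH652.PR.real_of_indicator (τ k) ?_ ?_ g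
        · have := TH652.ART.ortho hτ k k
          rwa [if_pos rfl] at this
        · intro h0
          unfold IsSymplectic at h3
          rw [h0, mul_zero] at h3
          norm_num at h3
      have h4 := TH652.PR.race_iff hτ hsym Y hY
        (Pg := fun g T => TH652.PR.psum S Fr (TH652.ART.cw g) (1 / 2) γ T)
        fun g => TH652.PR.lim_of_bdd (h1 g)
      have h5 : ((∀ k, ¬ IsSymplectic (τ k) → m k = 0) ∧
          ∀ k, IsSymplectic (τ k) → 2 * m k = 1 - W k) ↔ ∀ k, m k = if k ∈ Y then 1 else 0 := by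
        constructor
        · rintro ⟨h6, h7⟩ k
          by_cases hk : IsSymplectic (τ k)
          · have h8 := h7 k hk
            rcases hW k hk with h9 | h9
            · rw [if_neg fun h10 => by
                have := ((Finset.mem_filter.1 h10).2).2
                omega]
              omega
            · rw [if_pos (Finset.mem_filter.2 ⟨Finset.mem_univ _, hk, h9⟩)]
              omega
          · rw [if_neg fun h10 => hk ((Finset.mem_filter.1 h10).2).1]
            exact h6 k hk
        · intro h6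
          refine ⟨fun k hk => ?_, fun k hk => ?_⟩
          · rw [h6 k, if_neg fun h10 => hk ((Finset.mem_filter.1 h10).2).1]
          · rcases hW k hk with h9 | h9
            · rw [h6 k, if_neg fun h10 => by
                have := ((Finset.mem_filter.1 h10).2).2
                omega]
              omega
            · rw [h6 k, if_pos (Finset.mem_filter.2 ⟨Finset.mem_univ _, hk, h9⟩)]
              omega
      rw [h5, h4]
      refine forall_congr' fun g => ?_
      have h6 : ∀ T : ℝ, primeSum S Fr γ g T / Real.log T =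
          -(TH652.PR.psum S Fr (TH652.ART.cw g) (1 / 2) γ T / Real.log T) := by
        intro T
        rw [hsum, neg_div]
      simp only [h6]
      constructor
      · intro h7
        exact h7.neg
      · intro h7
        have h8 := h7.neg
        simp only [neg_neg] at h8
        exact h8
  refine ⟨key, fun A hA => ⟨fun T => hcfin A T, raceLaw_of key fun g => ?_⟩⟩
  have h3 := (TH652.PR.pcut S Fr g γ hA).neg_left
  refine h3.congr_left fun T => ?_
  rw [hsum, hfsum]
  ring

end Pool.Agent.Results.MP_3b6604_nt.PrimeRaces
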