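import Pool.Agent.TH944.Del.CenM

open Pool.Agent.TH965.Stk Pool.Agent.TH944.Tw

namespace Pool.Agent.Results.MP_3b6604_nt.TotallyComplexFields

/-- The order of vanishing at `s = 1/2` of the Artin `L`-functions over `ℚ` is `1` at the
irreducible symplectic characters with root number `-1` and `0` at all other irreducible
characters if and only if, for all linear characters `ψ` of totally complex number fields `K` with
at least `N` complex places, the order of vanishing of `L(s, ψ, K)` at `s = 1/2` is the number of
irreducible constituents of the induced character which are symplectic with root number `-1`. -/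
theorem result (T : Central) (N : ℕ) :
    (∀ χ ∈ T.irr, (χ ∈ T.neg → T.ord χ = 1) ∧ (χ ∉ T.neg → T.ord χ = 0)) ↔
    (∀ K, IsNF K → N ≤ r2 K → IsTC K → ∀ ψ : LinChar K,
      T.ord (ind QQ K ψ.fn) = T.e (ind QQ K ψ.fn)) :=
  main_central T N

end Pool.Agent.Results.MP_3b6604_nt.TotallyComplexFields
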